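import Pool.Agent.Lib.MP_47914d_nt.Hp.All

/-!
Modular Schanuel conjecture, partial result: points near the Hecke orbit of an arbitrary point.
-/

set_option autoImplicit false

namespace Pool.Agent.Results.MP_47914d_nt.AnyPoint

/-- The complex number `κ` is a zero of a nonzero integer polynomial of degree at most two with
coefficients of absolute value at most `H`, or the image of `α` under an integral matrix of
positive determinant with entries of absolute value at most `H`. -/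
def SpecialPoint (α κ : ℂ) (H : ℕ) : Prop :=
  (∃ a b c : ℤ, (a ≠ 0 ∨ b ≠ 0 ∨ c ≠ 0) ∧ |a| ≤ H ∧ |b| ≤ H ∧ |c| ≤ H ∧
    (a : ℂ) * κ ^ 2 + (b : ℂ) * κ + (c : ℂ) = 0) ∨
  ∃ a b c d : ℤ, |a| ≤ H ∧ |b| ≤ H ∧ |c| ≤ H ∧ |d| ≤ H ∧ 0 < a * d - b * c ∧
    κ * ((c : ℂ) * α + (d : ℂ)) = (a : ℂ) * α + (b : ℂ)

theorem result :
    ∀ J : ℂ → ℂ,
    (∀ τ : ℂ, 0 < τ.im →
      J τ = 1728 * (60 * ∑' p : ℤ × ℤ, 1 / ((p.1 : ℂ) * τ + (p.2 : ℂ)) ^ 4) ^ 3 /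
        ((60 * ∑' p : ℤ × ℤ, 1 / ((p.1 : ℂ) * τ + (p.2 : ℂ)) ^ 4) ^ 3 -
          27 * (140 * ∑' p : ℤ × ℤ, 1 / ((p.1 : ℂ) * τ + (p.2 : ℂ)) ^ 6) ^ 2)) →
    ∀ (n : ℕ) (z : Fin (n + 1) → ℂ), 0 < n → (∀ i, 0 < (z i).im) →
      (∀ i, ¬ ∃ a b c : ℤ, (a ≠ 0 ∨ b ≠ 0 ∨ c ≠ 0) ∧
          (a : ℂ) * z i ^ 2 + (b : ℂ) * z i + (c : ℂ) = 0) →
      (∀ i k, i ≠ k → ¬ ∃ a b c d : ℚ, 0 < a * d - b * c ∧
          z k * ((c : ℂ) * z i + (d : ℂ)) = (a : ℂ) * z i + (b : ℂ)) →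
      (∀ A H₀ : ℕ, ∃ H : ℕ, H₀ ≤ H ∧ ∃ κ : Fin n → ℂ,
        ∀ i, SpecialPoint (z 0) (κ i) H ∧ ‖κ i - z i.succ‖ < Real.exp (-(H : ℝ) ^ A)) →
      ∃ w : Fin (n + 2) → ℂ,
        (∀ m, w m ∈ Set.range z ∪ Set.range (fun i => J (z i))) ∧
        AlgebraicIndependent ℚ w := by
  intro J hJ n z hn him hcm hne happ
  have hJz : ∀ i, J (z i) = Lib.MP_47914d_nt.Jc (z i) := by
    intro i
    rw [hJ _ (him i)]
    exact Lib.MP_47914d_nt.specFormula _ (him i)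
  obtain ⟨w, hw⟩ := Lib.MP_47914d_nt.Hp.main_all hn z him hcm hne happ
  refine ⟨fun m => Lib.MP_47914d_nt.ptf z (w m), fun m => ?_, hw⟩
  show Lib.MP_47914d_nt.ptf z (w m) ∈ _
  rcases w m with i | i
  · left
    exact ⟨i, rfl⟩
  · right
    exact ⟨i, hJz i⟩

end Pool.Agent.Results.MP_47914d_nt.AnyPoint
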