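import Pool.Agent.Lib.MP_47914d_nt.BE.Fin

/-!
Modular Schanuel conjecture, partial result: the conjecture with derivatives, in bounded degree, for
all tuples of points with rational `j`-invariants near infinity, up to a defect of at most two.
-/

set_option autoImplicit false

namespace Pool.Agent.Results.MP_47914d_nt.BoundedDegree

theorem result :
    ∀ J : ℂ → ℂ,
    (∀ τ : ℂ, 0 < τ.im →
      J τ = 1728 * (60 * ∑' p : ℤ × ℤ, 1 / ((p.1 : ℂ) * τ + (p.2 : ℂ)) ^ 4) ^ 3 /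
        ((60 * ∑' p : ℤ × ℤ, 1 / ((p.1 : ℂ) * τ + (p.2 : ℂ)) ^ 4) ^ 3 -
          27 * (140 * ∑' p : ℤ × ℤ, 1 / ((p.1 : ℂ) * τ + (p.2 : ℂ)) ^ 6) ^ 2)) →
    ∀ D δ k : ℕ, ∃ C : ℕ, ∀ a b : ℤ, a ≠ 0 → (C : ℤ) * |a| ^ C ≤ b →
      ∃ e : ℕ → ℕ, ∑ j ∈ Finset.range k, e j ≤ 2 ∧
        ∀ (n : ℕ) (m : Fin n → ℕ) (z : Fin n → ℂ),
          Function.Injective m → (∀ i, m i < k) →
          (∀ i, 0 < (z i).im ∧ J (z i) = (b : ℂ) / a + m i) →
          ∀ K : IntermediateField ℚ ℂ, FiniteDimensional ℚ K → Module.finrank ℚ K ≤ δ →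
            ∃ B : Finset (Fin n ⊕ Fin n ⊕ Fin n), 3 * n ≤ B.card + ∑ i, e (m i) ∧
              ∀ P : MvPolynomial (Unit ⊕ B) K, P ≠ 0 → P.totalDegree ≤ D →
                MvPolynomial.aeval (Sum.elim (fun _ => 2 * Real.pi * Complex.I)
                  (fun v : B => Sum.elim z (Sum.elim (fun i => deriv J (z i))
                    (fun i => deriv (deriv J) (z i))) v.1)) P ≠ 0 := by
  classical
  intro J hJ D δ k
  obtain ⟨C, hC⟩ := Lib.MP_47914d_nt.BE.statement3 D δ k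
  refine ⟨C, fun a b ha hb => ?_⟩
  obtain ⟨e, he, h⟩ := hC a b ha hb
  refine ⟨e, he, fun n m z hm hmk hz K hK hδ => ?_⟩
  -- `J` and its derivatives
  have hJz : ∀ τ : ℂ, 0 < τ.im → J τ = Lib.MP_47914d_nt.Jc τ := by
    intro τ hτ
    rw [hJ _ hτ]
    exact Lib.MP_47914d_nt.specFormula _ hτ
  have hopen : IsOpen {w : ℂ | 0 < w.im} := isOpen_lt continuous_const Complex.continuous_im
  have hev : ∀ τ : ℂ, 0 < τ.im → J =ᶠ[nhds τ] Lib.MP_47914d_nt.Jc := fun τ hτ =>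
    Filter.eventually_of_mem (hopen.mem_nhds hτ) fun w hw => hJz w hw
  have hd1 : ∀ τ : ℂ, 0 < τ.im → deriv J τ = deriv Lib.MP_47914d_nt.Jc τ := fun τ hτ =>
    (hev τ hτ).deriv_eq
  have hd2 : ∀ τ : ℂ, 0 < τ.im →
      deriv (deriv J) τ = deriv (deriv Lib.MP_47914d_nt.Jc) τ := fun τ hτ =>
    Filter.EventuallyEq.deriv_eq
      (Filter.eventually_of_mem (hopen.mem_nhds hτ) fun w hw => hd1 w hw)
  obtain ⟨B, hB, hBP⟩ := h n m z hm hmk
    (fun i => ⟨(hz i).1, by rw [← hJz _ (hz i).1]; exact (hz i).2⟩) K hK hδ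
  -- the change of variables
  let f : Fin n × Fin 3 → Fin n ⊕ Fin n ⊕ Fin n := fun v =>
    (![Sum.inl v.1, Sum.inr (Sum.inl v.1), Sum.inr (Sum.inr v.1)] :
      Fin 3 → Fin n ⊕ Fin n ⊕ Fin n) v.2
  have hf0 : ∀ i, f (i, 0) = Sum.inl i := fun i => rfl
  have hf1 : ∀ i, f (i, 1) = Sum.inr (Sum.inl i) := fun i => rfl
  have hf2 : ∀ i, f (i, 2) = Sum.inr (Sum.inr i) := fun i => rfl
  have hfi : Function.Injective f := by
    rintro ⟨i, u⟩ ⟨j, v⟩ huv
    fin_cases u <;> fin_cases v <;> simp_all [f]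
  refine ⟨B.map ⟨f, hfi⟩, by rw [Finset.card_map]; exact hB, fun P hP hPD hP0 => hP ?_⟩
  have hg : ∀ v : (B.map ⟨f, hfi⟩ : Finset (Fin n ⊕ Fin n ⊕ Fin n)), ∃ u : B, f u.1 = v.1 := by
    rintro ⟨v, hv⟩
    obtain ⟨u, hu, rfl⟩ := Finset.mem_map.1 hv
    exact ⟨⟨u, hu⟩, rfl⟩
  choose g hg using hg
  let E : Unit ⊕ (B.map ⟨f, hfi⟩ : Finset (Fin n ⊕ Fin n ⊕ Fin n)) → Option B :=
    Sum.elim (fun _ => none) fun v => some (g v)
  have hE : Function.Injective E := by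
    rintro (u | u) (v | v) huv
    · rfl
    · exact absurd huv (by simp [E])
    · exact absurd huv (by simp [E])
    · have h1 : g u = g v := by simpa [E] using huv
      have h2 : u.1 = v.1 := by rw [← hg u, ← hg v, h1]
      rw [Subtype.ext h2]
  have key := hBP (MvPolynomial.rename E P) ((MvPolynomial.totalDegree_rename_le _ _).trans hPD) (by
    rw [MvPolynomial.aeval_rename, ← hP0]
    congr 1
    congr 1
    funext v
    rcases v with v | v
    · rfl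
    · have h1 := hg v
      obtain ⟨⟨⟨i, j⟩, hu⟩, hgv⟩ : ∃ u, g v = u := ⟨_, rfl⟩
      rw [hgv] at h1
      show (![z (g v).1.1, deriv Lib.MP_47914d_nt.Jc (z (g v).1.1),
        deriv (deriv Lib.MP_47914d_nt.Jc) (z (g v).1.1)] : Fin 3 → ℂ) (g v).1.2 =
        Sum.elim z (Sum.elim (fun i => deriv J (z i)) (fun i => deriv (deriv J) (z i))) v.1
      rw [hgv, ← h1]
      fin_cases j
      · rfl
      · show deriv Lib.MP_47914d_nt.Jc (z i) = deriv J (z i)
        rw [hd1 _ (hz i).1]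
      · show deriv (deriv Lib.MP_47914d_nt.Jc) (z i) = deriv (deriv J) (z i)
        rw [hd2 _ (hz i).1])
  exact MvPolynomial.rename_injective E hE (by rw [key, map_zero])

end Pool.Agent.Results.MP_47914d_nt.BoundedDegree
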