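import Pool.Agent.Lib.MP_47914d_nt.All4

/-!
Modular Schanuel conjecture, partial result: tuples of points of the upper half plane that are
simultaneously well approximable by quadratic numbers.
-/

set_option autoImplicit false

namespace Pool.Agent.Results.MP_47914d_nt.CMApprox

/-- The complex number `κ` is a zero of a nonzero polynomial `a X ^ 2 + b X + c` with integer
coefficients of absolute value at most `H`. -/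
def QuadHeight (κ : ℂ) (H : ℕ) : Prop :=
  ∃ a b c : ℤ, (a ≠ 0 ∨ b ≠ 0 ∨ c ≠ 0) ∧ |a| ≤ H ∧ |b| ≤ H ∧ |c| ≤ H ∧
    (a : ℂ) * κ ^ 2 + (b : ℂ) * κ + (c : ℂ) = 0

theorem result :
    ∀ J : ℂ → ℂ,
    (∀ τ : ℂ, 0 < τ.im →
      J τ = 1728 * (60 * ∑' p : ℤ × ℤ, 1 / ((p.1 : ℂ) * τ + (p.2 : ℂ)) ^ 4) ^ 3 /
        ((60 * ∑' p : ℤ × ℤ, 1 / ((p.1 : ℂ) * τ + (p.2 : ℂ)) ^ 4) ^ 3 -
          27 * (140 * ∑' p : ℤ × ℤ, 1 / ((p.1 : ℂ) * τ + (p.2 : ℂ)) ^ 6) ^ 2)) →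
    ∀ (n : ℕ) (z : Fin n → ℂ), 0 < n →
      (∀ i, 0 < (z i).im) →
      (∀ i, ¬ ∃ a b c : ℤ, (a ≠ 0 ∨ b ≠ 0 ∨ c ≠ 0) ∧
          (a : ℂ) * z i ^ 2 + (b : ℂ) * z i + (c : ℂ) = 0) →
      (∀ i k, i ≠ k → ¬ ∃ a b c d : ℚ, 0 < a * d - b * c ∧
          z k * ((c : ℂ) * z i + (d : ℂ)) = (a : ℂ) * z i + (b : ℂ)) →
      (∃ ε : ℝ, 0 < ε ∧ ∀ H₀ : ℕ, ∃ H : ℕ, H₀ ≤ H ∧ ∃ κ : Fin n → ℂ,
        ∀ i, ‖κ i - z i‖ < Real.exp (-(H : ℝ) ^ ((n : ℝ) + ε)) ∧ QuadHeight (κ i) H) →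
      ∃ w : Fin (n + 1) → ℂ,
        (∀ m, w m ∈ Set.range z ∪ Set.range (fun i => J (z i))) ∧
        AlgebraicIndependent ℚ w := by
  intro J hJ n z hn him hcm hne happ
  obtain ⟨ε, hε, happ⟩ := happ
  obtain ⟨w, hw⟩ := Lib.MP_47914d_nt.full_all hn z him hcm hne (s := (n : ℝ) + ε) (by linarith) (by
      rw [Filter.frequently_atTop]
      intro H₀
      obtain ⟨H, hH, κ, hκ⟩ := happ H₀
      exact ⟨H, hH, κ, hκ⟩)
  refine ⟨fun m => Lib.MP_47914d_nt.ptf z (w m), fun m => ?_, hw⟩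
  show Lib.MP_47914d_nt.ptf z (w m) ∈ _
  generalize w m = v
  rcases v with i | i
  · left
    exact ⟨i, rfl⟩
  · right
    refine ⟨i, ?_⟩
    show J (z i) = Lib.MP_47914d_nt.Jc (z i)
    rw [hJ _ (him i)]
    exact Lib.MP_47914d_nt.specFormula _ (him i)

end Pool.Agent.Results.MP_47914d_nt.CMApprox
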