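import Pool.Agent.Lib.MP_47914d_nt.Sn.All

/-!
Modular Schanuel conjecture, partial result: Schneider's theorem over Liouville fields.
-/

set_option autoImplicit false

namespace Pool.Agent.Results.MP_47914d_nt.LiouvilleFields

/-- The complex number `α` is a zero of a nonzero integer polynomial of degree at most `H` with
coefficients of absolute value at most `exp H`. -/
def AlgHeight (α : ℂ) (H : ℕ) : Prop :=
  ∃ F : Polynomial ℤ, F ≠ 0 ∧ Polynomial.aeval α F = 0 ∧ F.natDegree ≤ H ∧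
    ∀ i, |(F.coeff i : ℝ)| ≤ Real.exp H

theorem result :
    ∀ J : ℂ → ℂ,
    (∀ τ : ℂ, 0 < τ.im →
      J τ = 1728 * (60 * ∑' p : ℤ × ℤ, 1 / ((p.1 : ℂ) * τ + (p.2 : ℂ)) ^ 4) ^ 3 /
        ((60 * ∑' p : ℤ × ℤ, 1 / ((p.1 : ℂ) * τ + (p.2 : ℂ)) ^ 4) ^ 3 -
          27 * (140 * ∑' p : ℤ × ℤ, 1 / ((p.1 : ℂ) * τ + (p.2 : ℂ)) ^ 6) ^ 2)) →
    ∀ (n N : ℕ) (z : Fin n → ℂ) (x : Fin N → ℂ), 0 < n →
      (∀ i, 0 < (z i).im) →
      (∀ i, ¬ ∃ a b c : ℤ, (a ≠ 0 ∨ b ≠ 0 ∨ c ≠ 0) ∧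
          (a : ℂ) * z i ^ 2 + (b : ℂ) * z i + (c : ℂ) = 0) →
      (∀ i k, i ≠ k → ¬ ∃ a b c d : ℚ, 0 < a * d - b * c ∧
          z k * ((c : ℂ) * z i + (d : ℂ)) = (a : ℂ) * z i + (b : ℂ)) →
      AlgebraicIndependent ℚ x →
      (∀ i, IsAlgebraic (Algebra.adjoin ℚ (Set.range z ∪ Set.range (fun i => J (z i)))) (x i)) →
      (∀ A H₀ : ℕ, ∃ H : ℕ, H₀ ≤ H ∧ ∃ ξ : Fin N → ℂ,
        ∀ i, AlgHeight (ξ i) H ∧ ‖x i - ξ i‖ < Real.exp (-(H : ℝ) ^ A)) →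
      ∃ w : Fin (min n N + 1) → ℂ,
        (∀ m, w m ∈ Set.range z ∪ Set.range (fun i => J (z i))) ∧
        AlgebraicIndependent ℚ w := by
  intro J hJ n N z x hn him hcm hne hx hxs happ
  have hJz : ∀ i, J (z i) = Lib.MP_47914d_nt.Jc (z i) := by
    intro i
    rw [hJ _ (him i)]
    exact Lib.MP_47914d_nt.specFormula _ (him i)
  have hrange : Set.range z ∪ Set.range (fun i => J (z i)) =
      Set.range (Lib.MP_47914d_nt.ptf z) := by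
    rw [Lib.MP_47914d_nt.ptf, Set.Sum.elim_range]
    congr 1
    exact congrArg Set.range (funext hJz)
  obtain ⟨w, hw⟩ := Lib.MP_47914d_nt.Sn.main_all hn z him hcm hne x hx
    (by rw [← hrange]; exact hxs) happ
  refine ⟨fun m => Lib.MP_47914d_nt.ptf z (w m), fun m => ?_, hw⟩
  rw [hrange]
  exact ⟨w m, rfl⟩

end Pool.Agent.Results.MP_47914d_nt.LiouvilleFields
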